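import Mathlib

set_option autoImplicit false

namespace Pool.Agent.KS6_65.RE

open Polynomial

section Class2
variable {A : Type*} [Ring A] {a b z : A}

theorem comm_pow (hab : a * b - b * a = z) (hza : Commute z a) (hzb : Commute z b) (n : ℕ) :
    (C a * X + C b) ^ (n + 1) * C a = C a * (C a * X + C b) ^ (n + 1) -
      ((n + 1 : ℕ) : A[X]) * (C z * (C a * X + C b) ^ n) := by
  have h1 : (C a * X + C b) * C a = C a * (C a * X + C b) - C z := by
    rw [← hab, add_mul, mul_add, mul_assoc, X_mul_C, C_sub, C_mul, C_mul]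
    noncomm_ring
  have h2 : (C a * X + C b) * C z = C z * (C a * X + C b) := by
    rw [add_mul, mul_add, mul_assoc, X_mul_C, ← mul_assoc, ← C_mul, ← mul_assoc, ← C_mul, ← C_mul,
      ← C_mul, hza.eq, hzb.eq]
  generalize C a * X + C b = u at h1 h2 ⊢
  induction n with
  | zero => simpa using h1
  | succ n ih =>
    have e1 : u ^ (n + 1 + 1) * C a = u * (u ^ (n + 1) * C a) := by rw [pow_succ', mul_assoc]
    have e2 : u * (C a * u ^ (n + 1)) = C a * u ^ (n + 1 + 1) - C z * u ^ (n + 1) := by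
      rw [← mul_assoc, h1, sub_mul, mul_assoc, ← pow_succ']
    have e3 : u * (((n + 1 : ℕ) : A[X]) * (C z * u ^ n)) =
        ((n + 1 : ℕ) : A[X]) * (C z * u ^ (n + 1)) := by
      rw [← mul_assoc, ← (Nat.cast_commute (n + 1) u).eq, mul_assoc, ← mul_assoc u, h2, mul_assoc,
        ← pow_succ']
    rw [e1, ih, mul_sub, e2, e3]
    have e4 : ((n + 1 + 1 : ℕ) : A[X]) * (C z * u ^ (n + 1)) =
        ((n + 1 : ℕ) : A[X]) * (C z * u ^ (n + 1)) + C z * u ^ (n + 1) := by
      rw [Nat.cast_add_one (n + 1), add_mul, one_mul]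
    rw [e4]
    abel

theorem der_pow (hab : a * b - b * a = z) (hza : Commute z a) (hzb : Commute z b) (n : ℕ) :
    derivative ((C a * X + C b) ^ (n + 2)) = ((n + 2 : ℕ) : A[X]) * (C a * (C a * X + C b) ^ (n + 1)) -
      (((n + 2).choose 2 : ℕ) : A[X]) * (C z * (C a * X + C b) ^ n) := by
  have h0 : derivative (C a * X + C b) = C a := by simp
  induction n with
  | zero =>
    have h1 := comm_pow hab hza hzb 0
    simp only [zero_add, pow_one, pow_zero, mul_one, Nat.cast_one, one_mul] at h1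
    rw [zero_add, pow_two, derivative_mul, h0, h1]
    simp
    noncomm_ring
  | succ n ih =>
    have h1 := comm_pow hab hza hzb (n + 1)
    rw [show n + 1 + 2 = (n + 2) + 1 from rfl, pow_succ _ (n + 2), derivative_mul, h0, ih,
      show n + 2 = n + 1 + 1 from rfl, h1, sub_mul, mul_assoc, mul_assoc, mul_assoc, mul_assoc,
      ← pow_succ, ← pow_succ]
    have h3 : (n + 1 + 1 + 1).choose 2 = (n + 1 + 1).choose 2 + (n + 1 + 1) := by
      rw [Nat.choose_succ_succ' (n + 1 + 1) 1, Nat.choose_one_right, add_comm]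
    rw [h3]
    push_cast
    noncomm_ring

theorem class2_pow (p : ℕ) [hp : Fact p.Prime] (hpA : (p : A) = 0) (hodd : p ≠ 2)
    (hab : a * b - b * a = z) (hza : Commute z a) (hzb : Commute z b) :
    (a + b) ^ p = a ^ p + b ^ p := by
  have h2 := hp.out.two_le
  obtain ⟨n, rfl⟩ : ∃ n, p = n + 2 := ⟨p - 2, by omega⟩
  set u : A[X] := C a * X + C b with hu
  have hd : derivative (u ^ (n + 2)) = 0 := by
    rw [hu, der_pow hab hza hzb]
    have c1 : ((n + 2 : ℕ) : A[X]) = 0 := by rw [← C_eq_natCast, hpA, C_0]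
    have c2 : (((n + 2).choose 2 : ℕ) : A[X]) = 0 := by
      obtain ⟨k, hk⟩ := hp.out.dvd_choose_self (k := 2) (by norm_num) (by omega)
      rw [hk, Nat.cast_mul, c1, zero_mul]
    rw [c1, c2, zero_mul, zero_mul, sub_zero]
  have hc : ∀ k, k ≠ 0 → k < n + 2 → (u ^ (n + 2)).coeff k = 0 := by
    intro k hk0 hk
    obtain ⟨m, hm⟩ := Nat.exists_mul_mod_eq_one_of_coprime (k := n + 2) (n := k)
      ((Nat.coprime_comm.1 ((Nat.Prime.coprime_iff_not_dvd hp.out).2 fun h => by
        have := Nat.le_of_dvd (Nat.pos_of_ne_zero hk0) h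
        omega))) (by omega)
    have h3 := congrArg (fun q => q.coeff (k - 1)) hd
    simp only [coeff_derivative, coeff_zero] at h3
    have h4 : ((k - 1 : ℕ) : A) + 1 = (k : A) := by
      rw [← Nat.cast_add_one, Nat.sub_add_cancel (Nat.pos_of_ne_zero hk0)]
    rw [Nat.sub_add_cancel (Nat.pos_of_ne_zero hk0), h4] at h3
    have h5 : (k : A) * ((m : ℕ) : A) = 1 := by
      rw [← Nat.cast_mul]
      have : k * m = (n + 2) * (k * m / (n + 2)) + 1 := by
        conv_lhs => rw [← Nat.div_add_mod (k * m) (n + 2)]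
        rw [hm.2]
      rw [this, Nat.cast_add, Nat.cast_mul, hpA, zero_mul, zero_add, Nat.cast_one]
    calc (u ^ (n + 2)).coeff k = (u ^ (n + 2)).coeff k * ((k : A) * (m : A)) := by rw [h5, mul_one]
      _ = 0 := by rw [← mul_assoc, h3, zero_mul]
  have hdeg : u.natDegree ≤ 1 := by
    rw [hu]; compute_degree
  have hdeg' : (u ^ (n + 2)).natDegree < n + 3 := by
    have := natDegree_pow_le_of_le (n + 2) hdeg
    omega
  have e1 : eval₂RingHom' (RingHom.id A) (1 : A) (fun _ => Commute.one_right _) u = a + b := by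
    simp [hu, eval₂RingHom']
  have e2 : (a + b) ^ (n + 2) = (u ^ (n + 2)).eval 1 := by
    rw [← e1, ← map_pow]; rfl
  rw [e2, eval_eq_sum_range' hdeg', Finset.sum_range_succ, Finset.sum_range_succ']
  have e3 : ∑ k ∈ Finset.range (n + 1), (u ^ (n + 2)).coeff (k + 1) * 1 ^ (k + 1) = 0 :=
    Finset.sum_eq_zero fun k hk => by
      rw [hc _ (by omega) (by have := Finset.mem_range.1 hk; omega), zero_mul]
  have e4 : (u ^ (n + 2)).coeff 0 = b ^ (n + 2) := by
    rw [coeff_zero_eq_eval_zero]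
    have : ∀ q : A[X], q.eval 0 = constantCoeff q := fun q => by
      rw [constantCoeff_apply, coeff_zero_eq_eval_zero]
    rw [this, map_pow, constantCoeff_apply]
    simp [hu]
  have e5 : (u ^ (n + 2)).coeff (n + 2) = a ^ (n + 2) := by
    have := coeff_pow_of_natDegree_le (n := 1) hdeg (m := n + 2)
    rw [mul_one] at this
    rw [this]; simp [hu]
  rw [e3, e4, e5]
  simp [add_comm]

end Class2

end Pool.Agent.KS6_65.RE
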