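import Pool.Agent.KS6_65.RE.Cls

set_option autoImplicit false

namespace Pool.Agent.KS6_65.RE

/-- the three-dimensional Heisenberg Lie algebra: `⁅v, w⁆ = (0, 0, v 0 * w 1 - v 1 * w 0)` -/
def H3 (F : Type) : Type := Fin 3 → F

section
variable (F : Type) [Field F]

noncomputable instance : AddCommGroup (H3 F) := inferInstanceAs (AddCommGroup (Fin 3 → F))
noncomputable instance : Module F (H3 F) := inferInstanceAs (Module F (Fin 3 → F))

end

variable {F : Type} [Field F]

/-- the coordinates -/
def H3.co (v : H3 F) (i : Fin 3) : F := v i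

theorem H3.ext {v w : H3 F} (h : ∀ i, v.co i = w.co i) : v = w := funext h

theorem H3.add_co (v w : H3 F) (i : Fin 3) : (v + w).co i = v.co i + w.co i := rfl
theorem H3.smul_co (a : F) (v : H3 F) (i : Fin 3) : (a • v).co i = a * v.co i := rfl
theorem H3.zero_co (i : Fin 3) : (0 : H3 F).co i = 0 := rfl

/-- the element with the given coordinates -/
def mk3 (f : Fin 3 → F) : H3 F := f

theorem mk3_co (f : Fin 3 → F) (i : Fin 3) : (mk3 f).co i = f i := rfl

/-- central element -/
def cen (c : F) : H3 F := mk3 fun i => if i = 2 then c else 0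

theorem cen_co (c : F) (i : Fin 3) : (cen c).co i = if i = 2 then c else 0 := rfl

theorem cen_add (c d : F) : cen (c + d) = cen c + cen d := by
  refine H3.ext fun i => ?_; simp only [cen_co, H3.add_co]; split_ifs <;> simp
theorem cen_smul (c d : F) : cen (c * d) = c • cen d := by
  refine H3.ext fun i => ?_; simp only [cen_co, H3.smul_co]; split_ifs <;> simp
theorem cen_zero : cen (0 : F) = 0 := by
  refine H3.ext fun i => ?_; simp only [cen_co, H3.zero_co]; split_ifs <;> simp

noncomputable instance : LieRing (H3 F) where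
  bracket v w := cen (v.co 0 * w.co 1 - v.co 1 * w.co 0)
  add_lie v w x := by
    show cen _ = cen _ + cen _
    rw [← cen_add]; congr 1; simp only [H3.add_co]; ring
  lie_add v w x := by
    show cen _ = cen _ + cen _
    rw [← cen_add]; congr 1; simp only [H3.add_co]; ring
  lie_self v := by
    show cen _ = 0
    rw [mul_comm, sub_self, cen_zero]
  leibniz_lie v w x := by
    show cen _ = cen _ + cen _
    rw [← cen_add]; congr 1
    simp [cen_co]

theorem lie_def (v w : H3 F) : ⁅v, w⁆ = cen (v.co 0 * w.co 1 - v.co 1 * w.co 0) := rfl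

noncomputable instance : LieAlgebra F (H3 F) where
  lie_smul c v w := by
    rw [lie_def, lie_def, ← cen_smul]; congr 1; simp only [H3.smul_co]; ring

theorem cen_lie (c : F) (v : H3 F) : ⁅cen c, v⁆ = 0 := by
  rw [lie_def, ← cen_zero]; simp [cen_co]

theorem lie_cen (c : F) (v : H3 F) : ⁅v, cen c⁆ = 0 := by
  rw [lie_def, ← cen_zero]; simp [cen_co]

/-- the `p`-mapping -/
def pm (p : ℕ) (v : H3 F) : H3 F := cen (v.co 2 ^ p)

section
variable (p : ℕ) [hp : Fact p.Prime] [CharP F p]

omit [CharP F p] hp in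
theorem pm_smul (a : F) (x : H3 F) : pm p (a • x) = a ^ p • pm p x := by
  rw [pm, pm, ← cen_smul]; congr 1; rw [H3.smul_co, mul_pow]

omit [CharP F p] in
theorem pm_ad (x y : H3 F) : (LieAlgebra.ad F (H3 F) x ^ p) y = ⁅pm p x, y⁆ := by
  rw [pm, cen_lie]
  obtain ⟨n, hn⟩ : ∃ n, p = n + 2 := ⟨p - 2, by have := hp.out.two_le; omega⟩
  rw [hn, pow_add, Module.End.mul_apply, pow_two, Module.End.mul_apply, LieAlgebra.ad_apply,
    LieAlgebra.ad_apply, lie_def x y, lie_cen, map_zero]

theorem pm_add (x y : H3 F) : pm p (x + y) = pm p x + pm p y := by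
  rw [pm, pm, pm, ← cen_add]; congr 1; rw [H3.add_co, add_pow_char]

/-- additivity of the `p`-th power on the image of a Lie homomorphism of the Heisenberg algebra -/
theorem hom_pow {A : Type*} [Ring A] [Algebra F A] (hp2 : p ≠ 2) (g : H3 F →ₗ[F] A)
    (hg : ∀ x y, g ⁅x, y⁆ = g x * g y - g y * g x) (x y : H3 F) :
    (g x + g y) ^ p = g x ^ p + g y ^ p := by
  have hpA : (p : A) = 0 := by
    rw [← map_natCast (algebraMap F A), CharP.cast_eq_zero, map_zero]
  have hc : ∀ w, Commute (g ⁅x, y⁆) (g w) := fun w => by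
    have := hg ⁅x, y⁆ w
    rw [lie_def x y, cen_lie, map_zero] at this
    rw [lie_def x y]
    exact (sub_eq_zero.1 this.symm)
  exact class2_pow p hpA hp2 (hg x y).symm (hc x) (hc y)

end

end Pool.Agent.KS6_65.RE
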