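import Mathlib

/-! Adapted from the library module `Pool/Graph/R_pool_sql_team_51e01f96/S03052.lean`. -/

set_option autoImplicit false

namespace Pool.Agent.KS6_65.RE

section Std
variable {U : Type} [Ring U]

def s3 (a b c : U) : U := a * (b * c - c * b) - b * (a * c - c * a) + c * (a * b - b * a)

def s4 (a b c d : U) : U := a * s3 b c d - b * s3 a c d + c * s3 a b d - d * s3 a b c

theorem perm_sum4 (r : Fin 4 → U) :
    (∑ σ : Equiv.Perm (Fin 4),
      ((Equiv.Perm.sign σ : ℤˣ) : ℤ) • (List.ofFn fun i => r (σ i)).prod) =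
      s4 (r 0) (r 1) (r 2) (r 3) := by
  simp only [Finset.univ_perm_fin_succ, Finset.sum_map, Fintype.sum_prod_type,
    Fin.sum_univ_succ, Equiv.toEmbedding_apply, Equiv.Perm.decomposeFin.symm_sign,
    List.ofFn_succ, Equiv.Perm.decomposeFin_symm_apply_zero,
    Equiv.Perm.decomposeFin_symm_apply_succ, ← Finset.univ_product_univ, Finset.sum_product]
  simp [Equiv.swap_apply_def, s4, s3]
  noncomm_ring

theorem perm_sum2 (r : Fin 2 → U) :
    (∑ σ : Equiv.Perm (Fin 2),
      ((Equiv.Perm.sign σ : ℤˣ) : ℤ) • (List.ofFn fun i => r (σ i)).prod) =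
      r 0 * r 1 - r 1 * r 0 := by
  simp only [Finset.univ_perm_fin_succ, Finset.sum_map, Fintype.sum_prod_type,
    Fin.sum_univ_succ, Equiv.toEmbedding_apply, Equiv.Perm.decomposeFin.symm_sign,
    List.ofFn_succ, Equiv.Perm.decomposeFin_symm_apply_zero,
    Equiv.Perm.decomposeFin_symm_apply_succ, ← Finset.univ_product_univ, Finset.sum_product]
  simp [Equiv.swap_apply_def]
  noncomm_ring

end Std

section Two
open Polynomial
variable {F U : Type} [Field F] [Ring U] [Algebra F U] (a b : U)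

abbrev Q4 (F : Type) [Field F] := F[X] × F[X] × F[X] × F[X]

noncomputable def tm (s t : Q4 F) : Q4 F :=
  (X * s.1 * t.1 + s.2.1 * t.2.2.1, X * s.1 * t.2.1 + X * s.2.1 * t.2.2.2,
    X * s.2.2.1 * t.1 + X * s.2.2.2 * t.2.2.1, s.2.2.1 * t.2.1 + X * s.2.2.2 * t.2.2.2)

noncomputable def psi (s : Q4 F) : U :=
  aeval (a * b + b * a) s.1 * (a * b) + aeval (a * b + b * a) s.2.1 * a +
    aeval (a * b + b * a) s.2.2.1 * b + aeval (a * b + b * a) s.2.2.2 * (b * a)

theorem comm_aeval {z c : U} (h : c * z = z * c) (p : F[X]) : c * aeval z p = aeval z p * c := by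
  have hc : Commute c z := h
  induction p using Polynomial.induction_on' with
  | add p q hp hq => rw [map_add, mul_add, add_mul, hp, hq]
  | monomial n k =>
    rw [aeval_monomial]
    have h0 : Commute c (algebraMap F U k) := (Algebra.commutes k c).symm
    exact h0.mul_right (hc.pow_right n)

theorem psi_add (s t : Q4 F) : psi a b (s + t) = psi a b s + psi a b t := by
  simp only [psi, Prod.fst_add, Prod.snd_add, map_add]; noncomm_ring

theorem psi_sub (s t : Q4 F) : psi a b (s - t) = psi a b s - psi a b t := by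
  simp only [psi, Prod.fst_sub, Prod.snd_sub, map_sub]; noncomm_ring

theorem psi_smul (c : F) (s : Q4 F) : psi a b (c • s) = c • psi a b s := by
  simp only [psi, Prod.smul_fst, Prod.smul_snd, map_smul, smul_add, smul_mul_assoc]

theorem psi_zero : psi a b (0 : Q4 F) = 0 := by simp [psi]

theorem psi_mul (ha : a * a = 0) (hb : b * b = 0) (s t : Q4 F) :
    psi a b (tm s t) = psi a b s * psi a b t := by
  have haa : ∀ x, a * (a * x) = 0 := fun x => by rw [← mul_assoc, ha, zero_mul]
  have hbb : ∀ x, b * (b * x) = 0 := fun x => by rw [← mul_assoc, hb, zero_mul]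
  have za : a * (a * b + b * a) = (a * b + b * a) * a := by
    simp only [mul_add, add_mul, mul_assoc, haa, ha, mul_zero, zero_add, add_zero]
  have zb : b * (a * b + b * a) = (a * b + b * a) * b := by
    simp only [mul_add, add_mul, mul_assoc, hbb, hb, mul_zero, zero_add, add_zero]
  have h1 : ∀ (p : F[X]) (x : U), a * (aeval (a * b + b * a) p * x) =
      aeval (a * b + b * a) p * (a * x) := fun p x => by
    rw [← mul_assoc, comm_aeval za, mul_assoc]
  have h2 : ∀ (p : F[X]) (x : U), b * (aeval (a * b + b * a) p * x) =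
      aeval (a * b + b * a) p * (b * x) := fun p x => by
    rw [← mul_assoc, comm_aeval zb, mul_assoc]
  simp only [psi, tm, map_add, map_mul, aeval_X]
  simp only [mul_add, add_mul, mul_assoc, h1, h2, haa, hbb, ha, hb, mul_zero, add_zero, zero_add]
  abel

noncomputable def RR (ha : a * a = 0) (hb : b * b = 0) : NonUnitalSubalgebra F U where
  carrier := Set.range (psi (F := F) a b)
  add_mem' := by
    rintro _ _ ⟨s, rfl⟩ ⟨t, rfl⟩
    exact ⟨s + t, psi_add a b s t⟩
  zero_mem' := ⟨0, psi_zero a b⟩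
  mul_mem' := by
    rintro _ _ ⟨s, rfl⟩ ⟨t, rfl⟩
    exact ⟨tm s t, psi_mul a b ha hb s t⟩
  smul_mem' := by
    rintro c _ ⟨s, rfl⟩
    exact ⟨c • s, psi_smul a b c s⟩

theorem s4_RR (ha : a * a = 0) (hb : b * b = 0) (r : Fin 4 → U)
    (hr : ∀ i, r i ∈ RR (F := F) a b ha hb) : s4 (r 0) (r 1) (r 2) (r 3) = 0 := by
  obtain ⟨s, h0⟩ := hr 0
  obtain ⟨t, h1⟩ := hr 1
  obtain ⟨u, h2⟩ := hr 2
  obtain ⟨v, h3⟩ := hr 3
  rw [← h0, ← h1, ← h2, ← h3]
  simp only [s4, s3, ← psi_mul a b ha hb, ← psi_sub, ← psi_add]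
  rw [← psi_zero (F := F) a b]
  congr 1
  refine Prod.ext ?_ (Prod.ext ?_ (Prod.ext ?_ ?_)) <;>
    simp only [tm, Prod.fst_add, Prod.snd_add, Prod.fst_sub, Prod.snd_sub, Prod.fst_zero,
      Prod.snd_zero] <;> ring

theorem a_mem (ha : a * a = 0) (hb : b * b = 0) : a ∈ RR (F := F) a b ha hb :=
  ⟨(0, 1, 0, 0), by simp [psi]⟩

theorem b_mem (ha : a * a = 0) (hb : b * b = 0) : b ∈ RR (F := F) a b ha hb :=
  ⟨(0, 0, 1, 0), by simp [psi]⟩

end Two


end Pool.Agent.KS6_65.RE
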