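import Pool.Agent.KS6_65.RE.Rep
import Pool.Agent.KS6_65.RE.Std

set_option autoImplicit false

namespace Pool.Agent.KS6_65.RE

open Polynomial

/-- `f` is a `p`-mapping of the Lie algebra `L` -/
structure IsPMap (F L : Type) [Field F] [LieRing L] [LieAlgebra F L] (p : ℕ) (f : L → L) :
    Prop where
  smul : ∀ (a : F) (x : L), f (a • x) = a ^ p • f x
  ad : ∀ x y : L, (LieAlgebra.ad F L x ^ p) y = ⁅f x, y⁆
  jacobson : ∀ x y : L,
    UniversalEnvelopingAlgebra.ι F (f (x + y)) - UniversalEnvelopingAlgebra.ι F (f x)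
        - UniversalEnvelopingAlgebra.ι F (f y)
      = (UniversalEnvelopingAlgebra.ι F x + UniversalEnvelopingAlgebra.ι F y) ^ p
        - UniversalEnvelopingAlgebra.ι F x ^ p - UniversalEnvelopingAlgebra.ι F y ^ p

/-- the restricted enveloping algebra `u(L)` of `(L, f)` -/
abbrev RU (F L : Type) [Field F] [LieRing L] [LieAlgebra F L] (p : ℕ) (f : L → L) : Type :=
  RingQuot (fun a b : UniversalEnvelopingAlgebra F L =>
    ∃ x : L, a = UniversalEnvelopingAlgebra.ι F x ^ p ∧ b = UniversalEnvelopingAlgebra.ι F (f x))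

/-- the value of the standard polynomial of degree `m` -/
def stdV {A : Type} [Ring A] (m : ℕ) (r : Fin m → A) : A :=
  ∑ σ : Equiv.Perm (Fin m), ((Equiv.Perm.sign σ : ℤˣ) : ℤ) • (List.ofFn fun i => r (σ i)).prod

/-- `R` satisfies a nontrivial polynomial identity -/
def IsPI {F A : Type} [Field F] [Ring A] [Algebra F A] (R : NonUnitalSubalgebra F A) : Prop :=
  ∃ m : ℕ, ∃ φ : FreeAlgebra F (Fin m), φ ≠ 0 ∧
    ∀ r : Fin m → A, (∀ i, r i ∈ R) → FreeAlgebra.lift F r φ = 0

/-- `R` satisfies a power of the standard polynomial of degree `2 n` -/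
def SatPow {F A : Type} [Field F] [Ring A] [Algebra F A] (R : NonUnitalSubalgebra F A) (n : ℕ) :
    Prop :=
  ∃ t : ℕ, 1 ≤ t ∧ ∀ r : Fin (2 * n) → A, (∀ i, r i ∈ R) → stdV (2 * n) r ^ t = 0

/-- `n(R) = n`: the least positive `n` such that `R` satisfies a power of `S_{2n}` -/
def IsDeg {F A : Type} [Field F] [Ring A] [Algebra F A] (R : NonUnitalSubalgebra F A) (n : ℕ) :
    Prop := IsLeast {n | 1 ≤ n ∧ SatPow R n} n

attribute [local instance 100] LieRing.ofAssociativeRing

section
variable (F : Type) [Field F] (p : ℕ) [hp : Fact p.Prime] [CharP F p]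

theorem isPMap (hp2 : p ≠ 2) : IsPMap F (H3 F) p (pm p) where
  smul := pm_smul p
  ad := pm_ad p
  jacobson x y := by
    have h : (UniversalEnvelopingAlgebra.ι F x + UniversalEnvelopingAlgebra.ι F y) ^ p =
        UniversalEnvelopingAlgebra.ι F x ^ p + UniversalEnvelopingAlgebra.ι F y ^ p :=
      hom_pow (F := F) p hp2 (UniversalEnvelopingAlgebra.ι F : H3 F →ₗ⁅F⁆ _).toLinearMap
        (fun x y => by
          have := LieHom.map_lie (UniversalEnvelopingAlgebra.ι F (L := H3 F)) x y
          rw [Ring.lie_def] at this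
          exact this) x y
    rw [pm_add, map_add, add_sub_cancel_left, sub_self, h]
    simp

/-- the representation as a Lie homomorphism -/
noncomputable def ggL : H3 F →ₗ⁅F⁆ Module.End F (F[X] ⧸ MX F p) :=
  { gg F p with
    map_lie' := by
      intro x y
      rw [Ring.lie_def]
      exact gg_lie F p x y }

/-- the induced representation of `u(L)` -/
noncomputable def rho (hp2 : p ≠ 2) :
    RU F (H3 F) p (pm p) →ₐ[F] Module.End F (F[X] ⧸ MX F p) :=
  RingQuot.liftAlgHom F ⟨UniversalEnvelopingAlgebra.lift F (ggL F p), by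
    rintro _ _ ⟨x, rfl, rfl⟩
    rw [map_pow, UniversalEnvelopingAlgebra.lift_ι_apply, UniversalEnvelopingAlgebra.lift_ι_apply]
    exact gg_pm F p hp2 x⟩

/-- the canonical map `L → u(L)` -/
noncomputable def jj (x : H3 F) : RU F (H3 F) p (pm p) :=
  RingQuot.mkAlgHom F _ (UniversalEnvelopingAlgebra.ι F x)

theorem rho_jj (hp2 : p ≠ 2) (x : H3 F) : rho F p hp2 (jj F p x) = gg F p x := by
  rw [rho, jj, RingQuot.liftAlgHom_mkAlgHom_apply, UniversalEnvelopingAlgebra.lift_ι_apply]
  rfl

omit hp [CharP F p] in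
theorem jj_pow (x : H3 F) : jj F p x ^ p = jj F p (pm p x) := by
  have := RingQuot.mkAlgHom_rel F (s := fun a b : UniversalEnvelopingAlgebra F (H3 F) =>
    ∃ x : H3 F, a = UniversalEnvelopingAlgebra.ι F x ^ p ∧
      b = UniversalEnvelopingAlgebra.ι F (pm p x)) ⟨x, rfl, rfl⟩
  rw [map_pow] at this
  exact this

/-- the two generators -/
def ex : H3 F := mk3 fun i => if i = 0 then 1 else 0
/-- the two generators -/
def ey : H3 F := mk3 fun i => if i = 1 then 1 else 0

omit [CharP F p] in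
theorem jj_nil (x : H3 F) (hx : x.co 2 = 0) :
    jj F p x ^ ((p + 1) / 2) * jj F p x ^ ((p + 1) / 2) = 0 := by
  have h0 : jj F p x ^ p = 0 := by
    rw [jj_pow, pm, hx, zero_pow hp.out.ne_zero, cen_zero, jj, map_zero, map_zero]
  rw [← pow_add]
  obtain ⟨c, hc⟩ : ∃ c, (p + 1) / 2 + (p + 1) / 2 = p + c := ⟨(p + 1) / 2 + (p + 1) / 2 - p, by omega⟩
  rw [hc, pow_add, h0, zero_mul]

theorem main (hp2 : p ≠ 2) :
    ∃ R : NonUnitalSubalgebra F (RU F (H3 F) p (pm p)), IsPI R ∧ IsDeg R 2 := by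
  have hk : (p + 1) / 2 < p := by have := hp.out.two_le; omega
  have hk1 : 1 ≤ (p + 1) / 2 := by have := hp.out.two_le; omega
  have ha := jj_nil F p (ex F) (by simp [ex, mk3_co])
  have hb := jj_nil F p (ey F) (by simp [ey, mk3_co])
  have hx := rho_jj F p hp2 (ex F)
  have hy := rho_jj F p hp2 (ey F)
  have gx : gg F p (ex F) = DD F p := by rw [gg_app]; simp [ex, mk3_co]
  have gy : gg F p (ey F) = TT F p := by rw [gg_app]; simp [ey, mk3_co]
  rw [gx] at hx
  rw [gy] at hy
  generalize (p + 1) / 2 = k at ha hb hk hk1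
  refine ⟨RR (F := F) _ _ ha hb, ?_, ⟨by norm_num, 1, le_rfl, fun r hr => ?_⟩, ?_⟩
  · refine ⟨4, s4 (FreeAlgebra.ι _ 0) (FreeAlgebra.ι _ 1) (FreeAlgebra.ι _ 2)
      (FreeAlgebra.ι _ 3), ?_, ?_⟩
    · intro h0
      have := congrArg (FreeAlgebra.lift F
        (![!![1, 0, 0; 0, 0, 0; 0, 0, 0], !![0, 1, 0; 0, 0, 0; 0, 0, 0],
          !![0, 0, 0; 0, 1, 0; 0, 0, 0], !![0, 0, 0; 0, 0, 1; 0, 0, 0]] :
            Fin 4 → Matrix (Fin 3) (Fin 3) F)) h0
      simp only [s4, s3, map_sub, map_add, map_mul, FreeAlgebra.lift_ι_apply, map_zero] at this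
      have := congrFun (congrFun this 0) 2
      simp at this
    · intro r hr
      have := s4_RR _ _ ha hb r hr
      simp only [s4, s3, map_sub, map_add, map_mul, FreeAlgebra.lift_ι_apply] at this ⊢
      exact this
  · rw [pow_one]
    exact (perm_sum4 r).trans (s4_RR _ _ ha hb r hr)
  · rintro m ⟨hm1, t, ht, h⟩
    by_contra hm2
    obtain rfl : m = 1 := by omega
    have h1 := h ![jj F p (ex F) ^ k, jj F p (ey F) ^ k] (by
      intro i
      fin_cases i
      · exact a_mem _ _ ha hb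
      · exact b_mem _ _ ha hb)
    have h2 := perm_sum2 (![jj F p (ex F) ^ k, jj F p (ey F) ^ k])
    have h3 : (jj F p (ex F) ^ k * jj F p (ey F) ^ k - jj F p (ey F) ^ k * jj F p (ex F) ^ k) ^ t
        = 0 := by
      have h4 : (∑ σ : Equiv.Perm (Fin 2), ((Equiv.Perm.sign σ : ℤˣ) : ℤ) •
          (List.ofFn fun i => ![jj F p (ex F) ^ k, jj F p (ey F) ^ k] (σ i)).prod) ^ t = 0 := h1
      rw [h2] at h4
      exact h4
    have h5 := congrArg (rho F p hp2) h3
    rw [map_pow, map_sub, map_mul, map_mul, map_pow, map_pow, hx, hy, map_zero] at h5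
    have e1 : (DD F p ^ k * TT F p ^ k - TT F p ^ k * DD F p ^ k) ((MX F p).mkQ 1) =
        (k.factorial : F) • (MX F p).mkQ 1 := by
      rw [LinearMap.sub_apply, Module.End.mul_apply, Module.End.mul_apply, TT_pow, DD_pow, DD_pow,
        TT_pow, mul_one, iterate_derivative_X_pow_eq_smul]
      have : derivative^[k] (1 : F[X]) = 0 := by
        rw [← C_1]; exact iterate_derivative_C (by omega)
      rw [this, mul_zero, map_zero, sub_zero, Nat.descFactorial_self, Nat.sub_self, pow_zero,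
        ← map_smul]
    have e2 : ∀ s : ℕ, ((DD F p ^ k * TT F p ^ k - TT F p ^ k * DD F p ^ k) ^ s)
        ((MX F p).mkQ 1) = (k.factorial : F) ^ s • (MX F p).mkQ 1 := by
      intro s
      induction s with
      | zero => simp
      | succ s ih => rw [pow_succ', Module.End.mul_apply, ih, map_smul, e1, smul_smul, pow_succ]
    have e3 := e2 t
    rw [h5, LinearMap.zero_apply] at e3
    have hf : (k.factorial : F) ≠ 0 := fun h0 => by
      rw [CharP.cast_eq_zero_iff F p, hp.out.dvd_factorial] at h0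
      omega
    rcases smul_eq_zero.1 e3.symm with e4 | e4
    · exact pow_ne_zero _ hf e4
    · rw [Submodule.mkQ_apply, Submodule.Quotient.mk_eq_zero, mem_MX] at e4
      have := natDegree_le_of_dvd e4 one_ne_zero
      rw [natDegree_X_pow, natDegree_one] at this
      exact hp.out.ne_zero (Nat.le_zero.1 this)

end

end Pool.Agent.KS6_65.RE
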