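import Pool.Agent.KS6_65.RE.Heis

set_option autoImplicit false

namespace Pool.Agent.KS6_65.RE

open Polynomial

section
variable (F : Type) [Field F] (p : ℕ)

/-- the ideal generated by `X ^ p`, as a subspace -/
noncomputable def MX : Submodule F F[X] := (Ideal.span {(X : F[X]) ^ p}).restrictScalars F

variable {F p}

theorem mem_MX {q : F[X]} : q ∈ MX F p ↔ X ^ p ∣ q := by
  rw [MX, Submodule.restrictScalars_mem, Ideal.mem_span_singleton]

variable (F p)
variable [hp : Fact p.Prime] [CharP F p]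

omit hp in
theorem der_mem : MX F p ≤ (MX F p).comap (derivative : F[X] →ₗ[F] F[X]) := by
  intro q hq
  rw [Submodule.mem_comap, mem_MX]
  obtain ⟨g, rfl⟩ := mem_MX.1 hq
  rw [derivative_mul, derivative_X_pow, CharP.cast_eq_zero F p, C_0, zero_mul, zero_mul, zero_add]
  exact dvd_mul_right _ _

omit hp [CharP F p] in
theorem mul_mem' : MX F p ≤ (MX F p).comap (LinearMap.mulLeft F (X : F[X])) := by
  intro q hq
  rw [Submodule.mem_comap, mem_MX]
  exact (mem_MX.1 hq).mul_left _

/-- the derivative on `F[X] / (X ^ p)` -/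
noncomputable def DD : Module.End F (F[X] ⧸ MX F p) :=
  (MX F p).mapQ (MX F p) (derivative : F[X] →ₗ[F] F[X]) (der_mem F p)

omit hp [CharP F p] in
/-- multiplication by `X` on `F[X] / (X ^ p)` -/
noncomputable def TT : Module.End F (F[X] ⧸ MX F p) :=
  (MX F p).mapQ (MX F p) (LinearMap.mulLeft F (X : F[X])) (mul_mem' F p)

omit hp in
theorem DD_mk (q : F[X]) : DD F p ((MX F p).mkQ q) = (MX F p).mkQ (derivative q) :=
  Submodule.mapQ_apply _ _ _ _

omit hp [CharP F p] in
theorem TT_mk (q : F[X]) : TT F p ((MX F p).mkQ q) = (MX F p).mkQ (X * q) :=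
  Submodule.mapQ_apply _ _ _ _

omit hp in
theorem DD_pow (k : ℕ) (q : F[X]) :
    (DD F p ^ k) ((MX F p).mkQ q) = (MX F p).mkQ (derivative^[k] q) := by
  induction k generalizing q with
  | zero => rfl
  | succ k ih =>
    rw [pow_succ, Module.End.mul_apply, Function.iterate_succ_apply, ← ih, DD_mk]

omit hp [CharP F p] in
theorem TT_pow (k : ℕ) (q : F[X]) :
    (TT F p ^ k) ((MX F p).mkQ q) = (MX F p).mkQ (X ^ k * q) := by
  induction k generalizing q with
  | zero => simp
  | succ k ih =>
    rw [pow_succ, Module.End.mul_apply, pow_succ, mul_assoc, ← ih, TT_mk]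

theorem DD_p : DD F p ^ p = 0 := by
  refine LinearMap.ext fun v => ?_
  obtain ⟨q, rfl⟩ := (MX F p).mkQ_surjective v
  rw [DD_pow, ← factorial_smul_hasseDeriv]
  have : ((p.factorial : ℕ) : F[X]) = 0 := by
    rw [← C_eq_natCast, (CharP.cast_eq_zero_iff F p _).2 (Nat.dvd_factorial hp.out.pos le_rfl), C_0]
  rw [LinearMap.smul_apply, nsmul_eq_mul, this, zero_mul, map_zero]
  rfl

omit hp [CharP F p] in
theorem TT_p : TT F p ^ p = 0 := by
  refine LinearMap.ext fun v => ?_
  obtain ⟨q, rfl⟩ := (MX F p).mkQ_surjective v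
  rw [TT_pow, LinearMap.zero_apply, Submodule.mkQ_apply, Submodule.Quotient.mk_eq_zero, mem_MX]
  exact dvd_mul_right _ _

omit hp in
theorem comm_DT : DD F p * TT F p - TT F p * DD F p = 1 := by
  refine LinearMap.ext fun v => ?_
  obtain ⟨q, rfl⟩ := (MX F p).mkQ_surjective v
  rw [LinearMap.sub_apply, Module.End.mul_apply, Module.End.mul_apply, Module.End.one_apply, TT_mk,
    DD_mk, DD_mk, TT_mk, ← map_sub, derivative_mul, derivative_X, one_mul, add_sub_cancel_right]

/-- the representation of the Heisenberg algebra, as a linear map -/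
noncomputable def gg : H3 F →ₗ[F] Module.End F (F[X] ⧸ MX F p) where
  toFun v := v.co 0 • DD F p + v.co 1 • TT F p + v.co 2 • 1
  map_add' v w := by
    simp only [H3.add_co]; module
  map_smul' c v := by
    simp only [H3.smul_co, RingHom.id_apply]; module

omit hp in
theorem gg_app (v : H3 F) :
    gg F p v = v.co 0 • DD F p + v.co 1 • TT F p + v.co 2 • 1 := rfl

omit hp in
theorem gg_cen (c : F) : gg F p (cen c) = c • 1 := by
  rw [gg_app]; simp [cen_co]

omit hp in
theorem gg_lie (v w : H3 F) : gg F p ⁅v, w⁆ = gg F p v * gg F p w - gg F p w * gg F p v := by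
  rw [lie_def, gg_cen, gg_app, gg_app]
  have h := comm_DT F p
  generalize v.co 0 = v0
  generalize v.co 1 = v1
  generalize v.co 2 = v2
  generalize w.co 0 = w0
  generalize w.co 1 = w1
  generalize w.co 2 = w2
  generalize DD F p = D at h ⊢
  generalize TT F p = T at h ⊢
  have e : D * T = 1 + T * D := by rw [← h]; abel
  simp only [add_mul, mul_add, smul_mul_smul_comm, mul_one, one_mul]
  rw [e, mul_comm w0 v0, mul_comm w0 v1, mul_comm w1 v0, mul_comm w1 v1,
    mul_comm w2 v0, mul_comm w0 v2, mul_comm w1 v2, mul_comm w2 v1, mul_comm w2 v2]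
  module

theorem gg_pm (hp2 : p ≠ 2) (v : H3 F) : gg F p v ^ p = gg F p (pm p v) := by
  have hpA : (p : Module.End F (F[X] ⧸ MX F p)) = 0 := by
    rw [← map_natCast (algebraMap F (Module.End F (F[X] ⧸ MX F p))), CharP.cast_eq_zero, map_zero]
  rw [pm, gg_cen, gg_app]
  have h := comm_DT F p
  have hD := DD_p F p
  have hT := TT_p F p
  generalize v.co 0 = v0
  generalize v.co 1 = v1
  generalize v.co 2 = v2
  generalize DD F p = D at h hD ⊢
  generalize TT F p = T at h hT ⊢
  have h1 : (v0 • D + v1 • T + v2 • 1) ^ p = (v0 • D + v1 • T) ^ p + (v2 • 1) ^ p :=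
    class2_pow p hpA hp2 (z := 0) (by simp) (Commute.zero_left _) (Commute.zero_left _)
  have h2 : (v0 • D + v1 • T) ^ p = (v0 • D) ^ p + (v1 • T) ^ p := by
    refine class2_pow p hpA hp2 (z := (v0 * v1) • 1) ?_ ?_ ?_
    · rw [smul_mul_smul_comm, smul_mul_smul_comm, mul_comm v1 v0, ← h]; module
    · exact (Commute.one_left _).smul_left _
    · exact (Commute.one_left _).smul_left _
  rw [h1, h2, _root_.smul_pow, _root_.smul_pow, _root_.smul_pow, hD, hT, smul_zero, smul_zero,
    zero_add, zero_add, one_pow]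

end

end Pool.Agent.KS6_65.RE
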